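import Pool.Agent.helper34.AC.Spec

/-!
# Project ac (MP_e0bd72_co), module BRC: recursion for `F`
-/

set_option autoImplicit false

namespace Pool.Agent.helper34.AC

open Polynomial

/-- the umbral functional `X ^ k ↦ B_k` -/
noncomputable def BRC_L : ℝ[X] →ₗ[ℝ] ℝ := (Polynomial.basisMonomials ℝ).constr ℝ bl

theorem BRC_L_pow (k : ℕ) : BRC_L (X ^ k) = bl k := by
  have h := (Polynomial.basisMonomials ℝ).constr_basis ℝ bl k
  rw [Polynomial.coe_basisMonomials] at h
  rw [← Polynomial.monomial_one_right_eq_X_pow]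
  exact h

theorem BRC_F (m : ℕ) (z : ℝ) : BRC_L ((X + C z) ^ m) = F m z := by
  rw [add_pow, map_sum]
  unfold F
  apply Finset.sum_congr rfl
  intro k _
  have h : (X : ℝ[X]) ^ k * C z ^ (m - k) * ((m.choose k : ℕ) : ℝ[X]) =
      ((m.choose k : ℝ) * z ^ (m - k)) • (X : ℝ[X]) ^ k := by
    rw [Polynomial.smul_eq_C_mul, map_mul, map_pow, Polynomial.C_eq_natCast]
    ring
  rw [h, map_smul, BRC_L_pow, smul_eq_mul]

theorem BRC_bell (n : ℕ) : bl (n + 1) = ∑ k ∈ Finset.range (n + 1), (n.choose k : ℝ) * bl k := by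
  unfold bl
  rw [Nat.bell_succ', ← Finset.Nat.sum_antidiagonal_swap,
    Finset.Nat.sum_antidiagonal_eq_sum_range_succ_mk]
  push_cast
  apply Finset.sum_congr rfl
  intro k hk
  rw [Finset.mem_range] at hk
  simp only [Prod.fst_swap, Prod.snd_swap]
  rw [Nat.choose_symm (by omega)]

theorem BRC_one (m : ℕ) : F m 1 = bl (m + 1) := by
  rw [BRC_bell]
  unfold F
  apply Finset.sum_congr rfl
  intro k _
  rw [one_pow, mul_one]

theorem BRC_shift (p : ℝ[X]) : BRC_L (X * p) = BRC_L (p.comp (X + C 1)) := by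
  induction p using Polynomial.induction_on' with
  | add p q hp hq => rw [mul_add, map_add, hp, hq, Polynomial.add_comp, map_add]
  | monomial n a =>
    rw [Polynomial.monomial_comp, ← Polynomial.C_mul_X_pow_eq_monomial]
    have h1 : (X : ℝ[X]) * (C a * X ^ n) = a • X ^ (n + 1) := by
      rw [Polynomial.smul_eq_C_mul]
      ring
    have h2 : C a * (X + C (1 : ℝ)) ^ n = a • (X + C 1) ^ n := by
      rw [Polynomial.smul_eq_C_mul]
    rw [h1, h2, map_smul, map_smul, BRC_L_pow, BRC_F, BRC_one]

theorem BRC_pos (m : ℕ) : 0 < bl m := by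
  unfold bl
  have : 0 < Nat.bell m := by
    cases m with
    | zero => rw [Nat.bell_zero]; norm_num
    | succ n =>
      rw [Nat.bell_succ]
      have h : Nat.choose n n * Nat.bell (n - n) ≤
          ∑ i ∈ Finset.Iic n, Nat.choose n i * Nat.bell (n - i) :=
        Finset.single_le_sum (f := fun i => Nat.choose n i * Nat.bell (n - i))
          (fun _ _ => Nat.zero_le _) (Finset.mem_Iic.mpr le_rfl)
      rw [Nat.choose_self, Nat.sub_self, Nat.bell_zero] at h
      omega
  exact_mod_cast this

theorem BRC : BRC_stmt := by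
  refine ⟨?_, ?_, ?_, BRC_one, ?_, BRC_pos, ?_⟩
  · intro z
    simp [F, bl]
  · intro m z
    rw [← BRC_F, ← BRC_F, ← BRC_F, pow_succ']
    have h1 : (X + C z) * (X + C z) ^ m = X * (X + C z) ^ m + z • (X + C z) ^ m := by
      rw [Polynomial.smul_eq_C_mul]
      ring
    rw [h1, map_add, map_smul, smul_eq_mul, BRC_shift, Polynomial.pow_comp, Polynomial.add_comp,
      Polynomial.X_comp, Polynomial.C_comp, add_comm]
    congr 3
    rw [map_add]
    ring
  · intro m
    unfold F
    rw [Finset.sum_range_succ, Finset.sum_eq_zero]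
    · simp
    · intro k hk
      rw [Finset.mem_range] at hk
      rw [zero_pow (by omega)]
      ring
  · intro m z hz
    unfold F
    have h : (m.choose m : ℝ) * z ^ (m - m) * bl m ≤
        ∑ k ∈ Finset.range (m + 1), (m.choose k : ℝ) * z ^ (m - k) * bl k := by
      apply Finset.single_le_sum (f := fun k => (m.choose k : ℝ) * z ^ (m - k) * bl k)
      · intro k _
        have := (BRC_pos k).le
        positivity
      · rw [Finset.mem_range]
        omega
    rw [Nat.choose_self, Nat.sub_self, pow_zero, Nat.cast_one, one_mul, one_mul] at h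
    exact lt_of_lt_of_le (BRC_pos m) h
  · intro m z
    have h1 : HasDerivAt (fun t : ℝ => F (m + 1) t)
        (∑ k ∈ Finset.range (m + 1 + 1), ((m + 1).choose k : ℝ) *
          (((m + 1 - k : ℕ) : ℝ) * z ^ (m + 1 - k - 1)) * bl k) z := by
      unfold F
      apply HasDerivAt.fun_sum
      intro k _
      exact ((hasDerivAt_pow (m + 1 - k) z).const_mul _).mul_const _
    have h2 : (∑ k ∈ Finset.range (m + 1 + 1), ((m + 1).choose k : ℝ) *
          (((m + 1 - k : ℕ) : ℝ) * z ^ (m + 1 - k - 1)) * bl k) = ((m : ℝ) + 1) * F m z := by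
      rw [Finset.sum_range_succ, Nat.sub_self]
      unfold F
      rw [Finset.mul_sum, Nat.cast_zero, zero_mul, mul_zero, zero_mul, add_zero]
      apply Finset.sum_congr rfl
      intro k hk
      rw [Finset.mem_range] at hk
      have h3 := Nat.choose_mul_succ_eq m k
      have h4 : (m.choose k : ℝ) * ((m : ℝ) + 1) = ((m + 1).choose k : ℝ) * ((m + 1 - k : ℕ) : ℝ) := by
        exact_mod_cast h3
      have h5 : m + 1 - k - 1 = m - k := by omega
      rw [h5]
      linear_combination (-(z ^ (m - k) * bl k)) * h4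
    rw [h2] at h1
    exact h1

end Pool.Agent.helper34.AC
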