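import Pool.Agent.helper34.AC.Spec

/-!
# Project ac (MP_e0bd72_co), module CHR: the average is at least the chromatic number
-/

set_option autoImplicit false

namespace Pool.Agent.helper34.AC

theorem CHR_colorable (V : Type) [Fintype V] (G : SimpleGraph V)
    (P : Finset (Finset V)) (hP : P ∈ col G Finset.univ) : G.Colorable P.card := by
  classical
  unfold col at hP
  rw [Finset.mem_filter] at hP
  obtain ⟨-, h1, h2⟩ := hP
  choose B hB _ using fun v : V => h2 v (Finset.mem_univ v)
  have C : G.Coloring {S // S ∈ P} := SimpleGraph.Coloring.mk (fun v => ⟨B v, (hB v).1⟩) (by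
    intro v w hvw heq
    have h3 : B v = B w := congrArg Subtype.val heq
    have h4 := (h1 (B v) (hB v).1).2.2 v (hB v).2 w (h3 ▸ (hB w).2)
    exact h4 hvw)
  have h5 := C.colorable
  rwa [Fintype.card_coe] at h5

theorem CHR (hPOS : POS_stmt) : CHR_stmt := by
  classical
  intro V _ _ G r hr
  refine ⟨?_, ?_⟩
  · obtain ⟨hN, -⟩ := hPOS V G Finset.univ
    unfold N at hN
    unfold avg
    rw [le_div_iff₀ (by linarith)]
    have h1 : ∀ P ∈ col G Finset.univ, (r : ℝ) ≤ (P.card : ℝ) := by
      intro P hP
      have h2 := (CHR_colorable V G P hP).chromaticNumber_le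
      have h3 : (r : ℕ∞) ≤ (P.card : ℕ∞) := hr.trans h2
      exact_mod_cast h3
    have h4 := Finset.sum_le_sum h1
    rw [Finset.sum_const, nsmul_eq_mul] at h4
    linarith
  · have h2 := G.selfColoring.colorable.chromaticNumber_le
    have h3 : (r : ℕ∞) ≤ (Fintype.card V : ℕ∞) := hr.trans h2
    exact_mod_cast h3

end Pool.Agent.helper34.AC
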