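import Pool.Agent.helper34.AC.Spec

/-!
# Project ac (MP_e0bd72_co), module REC: sum over the block of a vertex
-/

set_option autoImplicit false

namespace Pool.Agent.helper34.AC

open Classical in
/-- the block of `v` without `v` -/
noncomputable def REC_g {V : Type} [DecidableEq V] (v : V) (P : Finset (Finset V)) : Finset V :=
  if h : ∃ S, S ∈ P ∧ v ∈ S then (Classical.choose h).erase v else ∅

theorem REC_g_spec {V : Type} [DecidableEq V] (G : SimpleGraph V) (U : Finset V) (v : V) (hv : v ∈ U)
    (P : Finset (Finset V)) (hP : IsCol G U P) :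
    ∃ B ∈ P, v ∈ B ∧ REC_g v P = B.erase v ∧ ∀ B' ∈ P, v ∈ B' → B' = B := by
  have h : ∃ S, S ∈ P ∧ v ∈ S := by
    obtain ⟨S, hS, -⟩ := hP.2 v hv
    exact ⟨S, hS⟩
  refine ⟨Classical.choose h, (Classical.choose_spec h).1, (Classical.choose_spec h).2, ?_, ?_⟩
  · unfold REC_g
    rw [dif_pos h]
  · intro B' hB' hvB'
    exact (hP.2 v hv).unique ⟨hB', hvB'⟩ (Classical.choose_spec h)

theorem REC (hMRK : MRK_stmt) : REC_stmt := by
  classical
  intro V _ G U v f hv
  have hcol : ∀ P, P ∈ col G U ↔ P ∈ U.powerset.powerset ∧ IsCol G U P := by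
    intro P
    unfold col
    rw [Finset.mem_filter]
  have hst : ∀ S, S ∈ st G {v} (U.erase v) ↔ S ⊆ U.erase v ∧
      ∀ x ∈ S, (∀ y ∈ S, ¬ G.Adj x y) ∧ ¬ G.Adj x v := by
    intro S
    unfold st
    rw [Finset.mem_filter, Finset.mem_powerset]
    simp only [Finset.mem_singleton, forall_eq]
  have hmaps : ∀ P ∈ col G U, REC_g v P ∈ st G {v} (U.erase v) := by
    intro P hP
    obtain ⟨-, hP⟩ := (hcol P).mp hP
    obtain ⟨B, hB, hvB, hg, -⟩ := REC_g_spec G U v hv P hP
    obtain ⟨-, hBU, hBs⟩ := hP.1 B hB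
    rw [hg, hst]
    refine ⟨Finset.erase_subset_erase v hBU, ?_⟩
    intro x hx
    rw [Finset.mem_erase] at hx
    refine ⟨?_, hBs x hx.2 v hvB⟩
    intro y hy
    rw [Finset.mem_erase] at hy
    exact hBs x hx.2 y hy.2
  rw [← Finset.sum_fiberwise_of_maps_to hmaps]
  apply Finset.sum_congr rfl
  intro S hS
  obtain ⟨hSU, hS2⟩ := (hst S).mp hS
  have hvS : v ∉ S := fun h => (Finset.mem_erase.mp (hSU h)).1 rfl
  have hfil : (col G U).filter (fun P => REC_g v P = S) =
      (col G U).filter (fun P => insert v S ∈ P) := by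
    apply Finset.filter_congr
    intro P hP
    obtain ⟨-, hP⟩ := (hcol P).mp hP
    obtain ⟨B, hB, hvB, hg, hu⟩ := REC_g_spec G U v hv P hP
    rw [hg]
    constructor
    · intro h
      rw [← h, Finset.insert_erase hvB]
      exact hB
    · intro h
      have h1 := hu _ h (Finset.mem_insert_self v S)
      rw [← h1, Finset.erase_insert hvS]
  rw [hfil]
  have hsub : insert v S ⊆ U := by
    intro x hx
    rw [Finset.mem_insert] at hx
    rcases hx with rfl | hx
    · exact hv
    · exact Finset.mem_of_mem_erase (hSU hx)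
  have hstab : Stab G (insert v S) := by
    intro x hx y hy
    rw [Finset.mem_insert] at hx hy
    rcases hx with rfl | hx
    · rcases hy with rfl | hy
      · exact G.loopless.irrefl _
      · intro h
        exact (hS2 y hy).2 h.symm
    · rcases hy with rfl | hy
      · exact (hS2 x hx).2
      · exact (hS2 x hx).1 y hy
  have h := hMRK V G U (insert v S) f hsub (Finset.insert_nonempty v S) hstab
  rw [h]
  have hU : U \ insert v S = U.erase v \ S := by
    ext x
    simp only [Finset.mem_sdiff, Finset.mem_insert, Finset.mem_erase]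
    tauto
  rw [hU]

end Pool.Agent.helper34.AC
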