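import Pool.Agent.helper34.AC.Spec4

/-!
# Project ac (MP_e0bd72_co), module LUP: upper bound for `L_2(n,r)`, `r` fixed
-/

set_option autoImplicit false

open Filter Topology

namespace Pool.Agent.helper34.AC

/-- the quotient `h_r(n)` -/
noncomputable def LUP_h (r n : ℕ) : ℝ := F (n - r + 1) r / F (n - r) r

theorem LUP_zero (hBRC : BRC_stmt) (n : ℕ) : LUP_h 0 n = gb n := by
  obtain ⟨-, -, hF0, -⟩ := hBRC
  unfold LUP_h gb
  rw [Nat.sub_zero, Nat.cast_zero, hF0, hF0]

theorem LUP_rec (hBRC : BRC_stmt) (r n : ℕ) (hn : r + 1 ≤ n) :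
    LUP_h (r + 1) n = LUP_h r n + r * (LUP_h r n - LUP_h r (n - 1)) / (LUP_h r (n - 1) - r) := by
  obtain ⟨-, hrec, -, -, hpos, -⟩ := hBRC
  obtain ⟨m, rfl⟩ : ∃ m, n = m + r + 1 := ⟨n - r - 1, by omega⟩
  have e1 : m + r + 1 - (r + 1) = m := by omega
  have e2 : m + r + 1 - r = m + 1 := by omega
  have e3 : m + r + 1 - 1 - r = m := by omega
  unfold LUP_h
  rw [e1, e2, e3]
  have hr : (0 : ℝ) ≤ r := Nat.cast_nonneg r
  have hA := hpos m (r : ℝ) hr
  have hB := hpos m ((r : ℝ) + 1) (by linarith)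
  have hC := hpos (m + 1) ((r : ℝ) + 1) (by linarith)
  have f1 := hrec m (r : ℝ)
  have f2 := hrec (m + 1) (r : ℝ)
  have hD := hpos (m + 1) (r : ℝ) hr
  push_cast
  rw [f2]
  rw [f1] at hD ⊢
  generalize F m (r : ℝ) = a at *
  generalize F m ((r : ℝ) + 1) = b at *
  generalize F (m + 1) ((r : ℝ) + 1) = c at *
  have h1 : ((r : ℝ) * a + b) / a - r = b / a := by
    field_simp
    ring
  rw [h1]
  have hD' := hD.ne'
  have hA' := hA.ne'
  have hB' := hB.ne'
  field_simp
  ring

theorem LUP (hLTW : LTW_stmt) (hBRC : BRC_stmt) (_hLAM : LAM_stmt) (hASY : ASY_stmt) (hOMF : OMF_stmt)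
    (hD23 : D23_stmt) : LUP_stmt := by
  obtain ⟨-, -, -, htg, -, -⟩ := hOMF
  obtain ⟨hx1, -, -, -⟩ := hD23
  have hg : ∀ K : ℝ, ∀ᶠ n : ℕ in atTop, K ≤ gb n := fun K => htg.eventually_ge_atTop K
  obtain ⟨M0, hM0⟩ := hASY 1 one_pos
  have hA : ∀ᶠ n : ℕ in atTop, 0 < xx n ∧ xx n ≤ 1 ∧ xx (n - 1) ≤ 2 * xx n ∧
      gb (n - 1) = gb n - xx n := by
    filter_upwards [eventually_ge_atTop M0, eventually_ge_atTop 2, hg 2] with n h1 h2 h3
    obtain ⟨k, rfl⟩ : ∃ k, n = k + 2 := ⟨n - 2, by omega⟩
    obtain ⟨-, hyy, -, -, -, -, -, hxp⟩ := hM0 (k + 2) h1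
    have hxle : xx (k + 2) ≤ 1 := (hx1 (k + 1)).2
    have hgb0 : 0 < gb (k + 2) := by linarith
    refine ⟨hxp, hxle, ?_, ?_⟩
    · have hy : yy (k + 2) = xx (k + 1) - xx (k + 2) := by
        unfold yy xx
        have e1 : k + 2 - 1 = k + 1 := by omega
        have e2 : k + 2 - 2 = k := by omega
        have e3 : k + 1 - 1 = k := by omega
        rw [e1, e2, e3]
        ring
      have e1 : k + 2 - 1 = k + 1 := by omega
      rw [e1]
      have h4 : yy (k + 2) ≤ 2 * (xx (k + 2) ^ 3 / gb (k + 2)) := by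
        have := (abs_le.mp hyy).2
        linarith
      have h5 : 2 * (xx (k + 2) ^ 3 / gb (k + 2)) ≤ xx (k + 2) := by
        rw [← mul_div_assoc, div_le_iff₀ hgb0]
        have h6 : xx (k + 2) ^ 3 ≤ xx (k + 2) := by
          have : xx (k + 2) ^ 2 ≤ 1 := by nlinarith
          nlinarith
        nlinarith
      linarith
    · unfold xx
      ring
  have hA1 : ∀ᶠ n : ℕ in atTop, 0 < xx (n - 1) ∧ xx (n - 1) ≤ 1 ∧ xx (n - 1 - 1) ≤ 2 * xx (n - 1) ∧
      gb (n - 1 - 1) = gb (n - 1) - xx (n - 1) := (tendsto_sub_atTop_nat 1).eventually hA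
  have key : ∀ r : ℕ, ∀ e : ℝ, 0 < e → ∀ᶠ n : ℕ in atTop,
      |LUP_h r n - LUP_h r (n - 1) - xx n| ≤ e * xx n ∧ gb n ≤ LUP_h r n ∧
      LUP_h r n ≤ gb n + ((r : ℝ) * ((r : ℝ) - 1) / 2) * (1 + e) * (xx n / gb n) := by
    intro r
    induction r with
    | zero =>
      intro e he
      filter_upwards [hA] with n h1
      rw [LUP_zero hBRC, LUP_zero hBRC]
      refine ⟨?_, le_rfl, ?_⟩
      · have : gb n - gb (n - 1) - xx n = 0 := by
          rw [h1.2.2.2]
          ring
        rw [this, abs_zero]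
        have := h1.1
        positivity
      · simp
    | succ r ih =>
      intro e he
      set e' : ℝ := min (1 / 4) (e / 4) with he'
      have he'0 : 0 < e' := lt_min (by norm_num) (by linarith)
      have he'1 : e' ≤ 1 / 4 := min_le_left _ _
      have he'2 : e' ≤ e / 4 := min_le_right _ _
      have hr : (0 : ℝ) ≤ r := Nat.cast_nonneg r
      have ih0 := ih e' he'0
      have ih1 : ∀ᶠ n : ℕ in atTop,
          |LUP_h r (n - 1) - LUP_h r (n - 1 - 1) - xx (n - 1)| ≤ e' * xx (n - 1) ∧
          gb (n - 1) ≤ LUP_h r (n - 1) ∧ LUP_h r (n - 1) ≤ gb (n - 1) +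
            ((r : ℝ) * ((r : ℝ) - 1) / 2) * (1 + e') * (xx (n - 1) / gb (n - 1)) :=
        (tendsto_sub_atTop_nat 1).eventually ih0
      have ih2 : ∀ᶠ n : ℕ in atTop, gb (n - 2) ≤ LUP_h r (n - 2) :=
        ((tendsto_sub_atTop_nat 2).eventually ih0).mono fun n h => h.2.1
      filter_upwards [ih0, ih1, ih2, hA, hA1, hg ((1 + r) / e'), hg (16 * r / e), hg (2 * (2 + r)),
        eventually_ge_atTop (r + 3), hg 1] with n i0 i1 i2 a0 a1 g1 g2 g3 hn g4
      have e11 : n - 1 - 1 = n - 2 := by omega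
      rw [e11] at i1 a1
      obtain ⟨i01, i02, i03⟩ := i0
      obtain ⟨i11, i12, -⟩ := i1
      obtain ⟨x0, x1, x2, x3⟩ := a0
      obtain ⟨y0, y1, -, y3⟩ := a1
      have hg0 : 0 < gb n := by linarith
      -- names
      set x := xx n with hx
      set g := gb n with hgdef
      set D := LUP_h r n - LUP_h r (n - 1) with hDdef
      set H := LUP_h r (n - 1) - (r : ℝ) with hHdef
      set D1 := LUP_h r (n - 1) - LUP_h r (n - 2) with hD1def
      set H1 := LUP_h r (n - 2) - (r : ℝ) with hH1def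
      have hrec0 : LUP_h (r + 1) n = LUP_h r n + r * D / H := LUP_rec hBRC r n (by omega)
      have hrec1 : LUP_h (r + 1) (n - 1) = LUP_h r (n - 1) + r * D1 / H1 := by
        have := LUP_rec hBRC r (n - 1) (by omega)
        rw [e11] at this
        exact this
      have hDle : D ≤ (1 + e') * x := by
        have := (abs_le.mp i01).2
        linarith
      have hDge : (1 - e') * x ≤ D := by
        have := (abs_le.mp i01).1
        linarith
      have hD0 : 0 ≤ D := le_trans (by nlinarith) hDge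
      have hD1le : D1 ≤ 4 * x := by
        have := (abs_le.mp i11).2
        nlinarith
      have hD10 : 0 ≤ D1 := by
        have := (abs_le.mp i11).1
        nlinarith
      rw [div_le_iff₀ he'0] at g1
      rw [div_le_iff₀ he] at g2
      have hHge : (1 - e') * g ≤ H := by
        have : g - x - r ≤ H := by
          rw [hHdef]
          linarith
        nlinarith
      have hHge2 : g / 2 ≤ H := by
        refine le_trans ?_ hHge
        nlinarith
      have hH0 : 0 < H := by linarith
      have hH1ge : g / 2 ≤ H1 := by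
        rw [hH1def]
        linarith
      have hH10 : 0 < H1 := by linarith
      have hq0 : 0 ≤ r * D / H := by positivity
      have hq10 : 0 ≤ r * D1 / H1 := by positivity
      have hqle : r * D / H ≤ r * (1 + e) * (x / g) := by
        rw [div_le_iff₀ hH0]
        have h1 : (1 + e') ≤ (1 + e) * (1 - e') := by nlinarith
        have h2 : D ≤ (1 + e) * (x / g) * H := by
          calc D ≤ (1 + e') * x := hDle
            _ ≤ (1 + e) * (1 - e') * x := mul_le_mul_of_nonneg_right h1 x0.le
            _ = (1 + e) * (x / g) * ((1 - e') * g) := by field_simp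
            _ ≤ (1 + e) * (x / g) * H := mul_le_mul_of_nonneg_left hHge (by positivity)
        calc (r : ℝ) * D ≤ r * ((1 + e) * (x / g) * H) := mul_le_mul_of_nonneg_left h2 hr
          _ = r * (1 + e) * (x / g) * H := by ring
      have hqle2 : r * D / H ≤ 8 * r * x / g := by
        rw [div_le_div_iff₀ hH0 hg0]
        have h1 : D ≤ 2 * x := by nlinarith
        have h2 : D * g ≤ 4 * x * H := by
          calc D * g ≤ 2 * x * g := mul_le_mul_of_nonneg_right h1 hg0.le
            _ = 4 * x * (g / 2) := by ring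
            _ ≤ 4 * x * H := mul_le_mul_of_nonneg_left hHge2 (by positivity)
        have h3 : r * (D * g) ≤ r * (4 * x * H) := mul_le_mul_of_nonneg_left h2 hr
        have h4 : 0 ≤ r * (x * H) := by positivity
        nlinarith
      have hq1le : r * D1 / H1 ≤ 8 * r * x / g := by
        rw [div_le_div_iff₀ hH10 hg0]
        have h2 : D1 * g ≤ 8 * x * H1 := by
          calc D1 * g ≤ 4 * x * g := mul_le_mul_of_nonneg_right hD1le hg0.le
            _ = 8 * x * (g / 2) := by ring
            _ ≤ 8 * x * H1 := mul_le_mul_of_nonneg_left hH1ge (by positivity)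
        have h3 : r * (D1 * g) ≤ r * (8 * x * H1) := mul_le_mul_of_nonneg_left h2 hr
        nlinarith
      have hsmall : 8 * r * x / g ≤ e / 2 * x := by
        rw [div_le_iff₀ hg0]
        nlinarith
      refine ⟨?_, ?_, ?_⟩
      · rw [hrec0, hrec1]
        have h1 : LUP_h r n + r * D / H - (LUP_h r (n - 1) + r * D1 / H1) - x =
            (D - x) + (r * D / H - r * D1 / H1) := by
          rw [hDdef]
          ring
        rw [h1]
        have h2 := abs_le.mp i01
        rw [abs_le]
        constructor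
        · nlinarith
        · nlinarith
      · rw [hrec0]
        linarith
      · rw [hrec0]
        push_cast
        have h1 : (r : ℝ) * ((r : ℝ) - 1) / 2 * (1 + e') * (x / g) ≤
            (r : ℝ) * ((r : ℝ) - 1) / 2 * (1 + e) * (x / g) := by
          apply mul_le_mul_of_nonneg_right _ (by positivity)
          apply mul_le_mul_of_nonneg_left (by linarith)
          have : 0 ≤ (r : ℝ) * ((r : ℝ) - 1) := by
            rcases Nat.eq_zero_or_pos r with h | h
            · rw [h]
              simp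
            · have : (1 : ℝ) ≤ r := by exact_mod_cast h
              nlinarith
          linarith
        have h2 : ((r : ℝ) + 1) * ((r : ℝ) + 1 - 1) / 2 * (1 + e) * (x / g) =
            (r : ℝ) * ((r : ℝ) - 1) / 2 * (1 + e) * (x / g) + r * (1 + e) * (x / g) := by ring
        rw [h2]
        linarith
  intro r e he
  obtain ⟨M, hM⟩ := eventually_atTop.mp ((key r e he).and (eventually_ge_atTop r))
  refine ⟨M, ?_⟩
  intro n hn
  obtain ⟨⟨-, -, h3⟩, hrn⟩ := hM n hn
  rw [hLTW.1 n r hrn]
  exact h3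

end Pool.Agent.helper34.AC
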