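import Pool.Agent.helper34.AC.Spec3

/-!
# Project ac (MP_e0bd72_co), module OMF: basic facts on `om`
-/

set_option autoImplicit false

open Filter Topology

namespace Pool.Agent.helper34.AC

theorem OMF (hULB : ULB_stmt) (hBLO : BLO_stmt) (hBUP : BUP_stmt) (hBRC : BRC_stmt) (_hD23 : D23_stmt) :
    OMF_stmt := by
  obtain ⟨-, -, hF0, -, -, hpos, -⟩ := hBRC
  have hg1 : ∀ n, 1 ≤ gb n := fun n => (hBLO n).1
  have hg0 : ∀ n, 0 < gb n := fun n => lt_of_lt_of_le one_pos (hg1 n)
  have hgd : ∀ n, gb n * bl n = bl (n + 1) := by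
    intro n
    unfold gb
    rw [div_mul_cancel₀ _ (hpos n).ne']
  have hdiff : ∀ n : ℕ, om (n + 1) - om n = (1 - om n * xx (n + 1)) / gb (n + 1) := by
    intro n
    unfold om xx
    rw [Nat.add_sub_cancel]
    have h1 := (hg0 n).ne'
    have h2 := (hg0 (n + 1)).ne'
    push_cast
    field_simp
    ring
  have hmono1 : ∀ n : ℕ, om n ≤ om (n + 1) := by
    intro n
    have h1 := hg0 n
    have h2 := hg0 (n + 1)
    have h3 : ((n : ℝ) + 1) * gb (n + 1) ≤ ((n : ℝ) + 2) * gb n := by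
      have hu := hULB n
      have hb1 := hpos (n + 1)
      have hb0 := hpos n
      have e1 : gb (n + 1) * bl (n + 1) = bl (n + 2) := hgd (n + 1)
      have e2 := hgd n
      have hpp : 0 < bl n * bl (n + 1) := by positivity
      rw [← mul_le_mul_iff_left₀ hpp]
      calc ((n : ℝ) + 1) * gb (n + 1) * (bl n * bl (n + 1)) =
            ((n : ℝ) + 1) * (bl n * (gb (n + 1) * bl (n + 1))) := by ring
        _ = ((n : ℝ) + 1) * (bl n * bl (n + 2)) := by rw [e1]
        _ ≤ ((n : ℝ) + 2) * bl (n + 1) ^ 2 := hu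
        _ = ((n : ℝ) + 2) * (gb n * bl n) * bl (n + 1) := by rw [e2]; ring
        _ = ((n : ℝ) + 2) * gb n * (bl n * bl (n + 1)) := by ring
    have h4 : (n : ℝ) * gb (n + 1) ≤ ((n : ℝ) + 1) * gb n := by
      have hn : (0 : ℝ) ≤ n := Nat.cast_nonneg n
      have h5 : (n : ℝ) * (((n : ℝ) + 1) * gb (n + 1)) ≤ (n : ℝ) * (((n : ℝ) + 2) * gb n) :=
        mul_le_mul_of_nonneg_left h3 hn
      have h6 : ((n : ℝ) + 1) * ((n : ℝ) * gb (n + 1)) ≤ ((n : ℝ) + 1) * (((n : ℝ) + 1) * gb n) := by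
        nlinarith
      exact le_of_mul_le_mul_left h6 (by positivity)
    unfold om
    rw [div_le_div_iff₀ h1 h2]
    push_cast
    exact h4
  have hmono : Monotone om := monotone_nat_of_le_succ hmono1
  have hlog1 : ∀ n : ℕ, om n ≤ Real.log (gb n) := by
    intro n
    unfold om
    rw [div_le_iff₀ (hg0 n)]
    linarith [(hBLO n).2]
  have hlog2 : ∀ n : ℕ, Real.log (gb n) ≤ om n + 1 := by
    intro n
    have h := (hBUP n 0 le_rfl).2
    rw [hF0, hF0, sub_zero] at h
    have h' : gb n * Real.log (gb n) ≤ (n : ℝ) + 1 := h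
    have h1 : Real.log (gb n) ≤ ((n : ℝ) + 1) / gb n := by
      rw [le_div_iff₀ (hg0 n)]
      linarith
    refine h1.trans ?_
    unfold om
    rw [add_div]
    have : 1 / gb n ≤ 1 := by
      rw [div_le_one (hg0 n)]
      exact hg1 n
    linarith
  have htg : Tendsto gb atTop atTop := by
    rw [tendsto_atTop_atTop]
    intro b
    obtain ⟨N, hN⟩ := exists_nat_gt (b ^ 2)
    refine ⟨N, ?_⟩
    intro n hn
    have h1 := (hBLO n).2
    have h2 : Real.log (gb n) ≤ gb n := (Real.log_le_sub_one_of_pos (hg0 n)).trans (by linarith)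
    have h3 : gb n * Real.log (gb n) ≤ gb n * gb n := mul_le_mul_of_nonneg_left h2 (hg0 n).le
    have h4 : (N : ℝ) ≤ n := by exact_mod_cast hn
    have h5 : b ^ 2 ≤ gb n ^ 2 := by nlinarith
    exact (abs_le_of_sq_le_sq' h5 (hg0 n).le).2
  have hto : Tendsto om atTop atTop := by
    have h1 : Tendsto (fun n => Real.log (gb n) - 1) atTop atTop :=
      tendsto_atTop_add_const_right _ (-1) (Real.tendsto_log_atTop.comp htg)
    apply tendsto_atTop_mono _ h1
    intro n
    linarith [hlog2 n]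
  have hom0 : ∀ n, 0 ≤ om n := fun n => div_nonneg (Nat.cast_nonneg n) (hg0 n).le
  refine ⟨fun n => ⟨hom0 n, hmono1 n, hdiff n⟩, fun m n h => hmono h,
    fun n => ⟨hlog1 n, hlog2 n⟩, htg, hto, ?_⟩
  intro k
  have h1 : Tendsto (fun n => 2 ^ k * (Real.log (gb n) ^ k / gb n)) atTop (𝓝 0) := by
    have h2 := (Real.isLittleO_pow_log_id_atTop (n := k)).tendsto_div_nhds_zero
    have h3 := (h2.comp htg).const_mul (2 ^ k)
    rw [mul_zero] at h3
    exact h3
  apply tendsto_of_tendsto_of_tendsto_of_le_of_le' tendsto_const_nhds h1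
  · filter_upwards with n
    have := hom0 n
    have := hg0 n
    positivity
  · filter_upwards [htg.eventually_ge_atTop (Real.exp 1)] with n hn
    have h2 : 1 ≤ Real.log (gb n) := by
      rw [Real.le_log_iff_exp_le (hg0 n)]
      exact hn
    rw [← mul_div_assoc, ← mul_pow]
    apply div_le_div_of_nonneg_right _ (hg0 n).le
    apply pow_le_pow_left₀ (by linarith [hom0 n])
    linarith [hlog1 n]

end Pool.Agent.helper34.AC
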